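import Pool.Agent.Helper33.DefNum.Main

namespace Pool.Agent.Helper33.Kept.GeneralLower

open Pool.Agent.Helper33.DefNum

/-- `d(K_n × K_n, k) ≥ n (k - n)` for all `n ≤ k ≤ 2n`. -/
theorem result : ∀ n k : ℕ, n ≤ k → k ≤ 2 * n → n * (k - n) ≤ definingNumber (grid n) k :=
  fun _ _ h1 h2 => general_lower h1 h2

end Pool.Agent.Helper33.Kept.GeneralLower
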